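import Mathlib

set_option autoImplicit false

open Polynomial

namespace Pool.Agent.Results.MP_512501_an.Counterexample

/-- the zeros of the counterexample -/
noncomputable def S : Multiset ℝ :=
  Multiset.replicate 40 (21 / 100) + {-1, -199 / 200, -19 / 20, -22 / 25}

/-- the counterexample -/
noncomputable def Q0 : ℝ[X] := (S.map (fun a => X - C a)).prod

lemma Q0_eq : Q0 = (X - C (21 / 100)) ^ 40 * ((X - C (-1)) * (X - C (-199 / 200)) *
    (X - C (-19 / 20)) * (X - C (-22 / 25))) := by
  unfold Q0 S
  simp only [Multiset.map_add, Multiset.prod_add, Multiset.map_replicate, Multiset.prod_replicate,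
    Multiset.insert_eq_cons, Multiset.map_cons, Multiset.prod_cons, Multiset.map_singleton,
    Multiset.prod_singleton]
  ring

lemma Q0_eval (x : ℝ) : Q0.eval x = (x - 21 / 100) ^ 40 * ((x + 1) * (x + 199 / 200) *
    (x + 19 / 20) * (x + 22 / 25)) := by
  rw [Q0_eq]
  simp only [eval_mul, eval_pow, eval_sub, eval_X, eval_C]
  ring

lemma Q0_deriv (x : ℝ) : (derivative Q0).eval x = (x - 21 / 100) ^ 39 *
    (40 * ((x + 1) * (x + 199 / 200) * (x + 19 / 20) * (x + 22 / 25)) +
      (x - 21 / 100) * ((x + 199 / 200) * (x + 19 / 20) * (x + 22 / 25) +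
        (x + 1) * (x + 19 / 20) * (x + 22 / 25) + (x + 1) * (x + 199 / 200) * (x + 22 / 25) +
        (x + 1) * (x + 199 / 200) * (x + 19 / 20))) := by
  rw [Q0_eq]
  simp only [derivative_mul, derivative_X_sub_C_pow, derivative_sub, derivative_X, derivative_C,
    eval_add, eval_mul, eval_pow, eval_sub, eval_X, eval_C, eval_one, eval_zero]
  norm_num
  ring

/-- tangent line bound for the logarithm of a product of linear factors. -/
lemma tangent (s : Multiset ℝ) (x y : ℝ) (hy : ∀ z ∈ s, y ≠ z)
    (h : ∀ z ∈ s, 0 ≤ (x - z) / (y - z)) :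
    |(s.map (fun z => x - z)).prod| ≤
      |(s.map (fun z => y - z)).prod| * Real.exp ((x - y) * (s.map (fun z => 1 / (y - z))).sum) := by
  induction s using Multiset.induction_on with
  | empty => simp
  | cons a s ih =>
    have ih := ih (fun z hz => hy z (Multiset.mem_cons_of_mem hz))
      (fun z hz => h z (Multiset.mem_cons_of_mem hz))
    have hya : y - a ≠ 0 := sub_ne_zero.mpr (hy a (Multiset.mem_cons_self a s))
    have ha := h a (Multiset.mem_cons_self a s)
    simp only [Multiset.map_cons, Multiset.prod_cons, Multiset.sum_cons, abs_mul, mul_add,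
      Real.exp_add]
    have h1 : |x - a| ≤ |y - a| * Real.exp ((x - y) * (1 / (y - a))) := by
      have e : (x - a) / (y - a) = (x - y) * (1 / (y - a)) + 1 := by field_simp; ring
      have h2 := Real.add_one_le_exp ((x - y) * (1 / (y - a)))
      rw [← e] at h2
      have e2 : |x - a| = |y - a| * ((x - a) / (y - a)) := by
        rw [← abs_of_nonneg ha, abs_div]
        field_simp
      rw [e2]
      exact mul_le_mul_of_nonneg_left h2 (abs_nonneg _)
    calc |x - a| * |(s.map (fun z => x - z)).prod|
        ≤ (|y - a| * Real.exp ((x - y) * (1 / (y - a)))) *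
          (|(s.map (fun z => y - z)).prod| *
            Real.exp ((x - y) * (s.map (fun z => 1 / (y - z))).sum)) :=
          mul_le_mul h1 ih (abs_nonneg _) (by positivity)
      _ = _ := by ring

lemma prod_eval (x : ℝ) : (S.map (fun z => x - z)).prod = Q0.eval x := by
  rw [Q0_eval]
  unfold S
  simp only [Multiset.map_add, Multiset.prod_add, Multiset.map_replicate, Multiset.prod_replicate,
    Multiset.insert_eq_cons, Multiset.map_cons, Multiset.prod_cons, Multiset.map_singleton,
    Multiset.prod_singleton]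
  ring

lemma sum_eval (y : ℝ) : (S.map (fun z => 1 / (y - z))).sum =
    40 / (y - 21 / 100) + 1 / (y + 1) + 1 / (y + 199 / 200) + 1 / (y + 19 / 20) +
      1 / (y + 22 / 25) := by
  unfold S
  simp only [Multiset.map_add, Multiset.sum_add, Multiset.map_replicate, Multiset.sum_replicate,
    Multiset.insert_eq_cons, Multiset.map_cons, Multiset.sum_cons, Multiset.map_singleton,
    Multiset.sum_singleton]
  simp only [nsmul_eq_mul]
  push_cast
  rw [show y - -1 = y + 1 by ring, show y - -199 / 200 = y + 199 / 200 by ring,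
    show y - -19 / 20 = y + 19 / 20 by ring, show y - -22 / 25 = y + 22 / 25 by ring]
  ring

lemma mem_S {z : ℝ} (hz : z ∈ S) :
    z = 21 / 100 ∨ z = -1 ∨ z = -199 / 200 ∨ z = -19 / 20 ∨ z = -22 / 25 := by
  unfold S at hz
  simp only [Multiset.mem_add, Multiset.mem_replicate, Multiset.insert_eq_cons, Multiset.mem_cons,
    Multiset.mem_singleton] at hz
  tauto

lemma exp_small {t : ℝ} (h : t ≤ 1 / 100) : Real.exp t ≤ 100 / 99 := by
  have h1 : Real.exp t ≤ Real.exp (1 / 100) := Real.exp_le_exp.mpr h
  have h2 := Real.add_one_le_exp (-(1 / 100 : ℝ))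
  have h3 : Real.exp (1 / 100) * Real.exp (-(1 / 100 : ℝ)) = 1 := by
    rw [← Real.exp_add]; simp
  have h4 := Real.exp_pos (1 / 100 : ℝ)
  nlinarith

/-- the bound on one arc between consecutive zeros, from one point `y` of the arc. -/
lemma arc (x y : ℝ) (h : ∀ z ∈ S, 0 < (y - z) * (y - z) ∧ 0 ≤ (x - z) * (y - z))
    (ht : (x - y) * (40 / (y - 21 / 100) + 1 / (y + 1) + 1 / (y + 199 / 200) + 1 / (y + 19 / 20) +
      1 / (y + 22 / 25)) ≤ 1 / 100)
    (hb : |Q0.eval y| * (100 / 99) ≤ |Q0.eval 1|) : |Q0.eval x| ≤ |Q0.eval 1| := by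
  have h1 := tangent S x y (fun z hz => by
    intro e; have := (h z hz).1; rw [e, sub_self] at this; simp at this) (fun z hz => by
    obtain ⟨h2, h3⟩ := h z hz
    have e : (x - z) / (y - z) = ((x - z) * (y - z)) / ((y - z) * (y - z)) := by
      have : y - z ≠ 0 := by
        intro e; rw [e] at h2; simp at h2
      field_simp
    rw [e]; positivity)
  rw [prod_eval, prod_eval, sum_eval] at h1
  refine h1.trans (le_trans ?_ hb)
  exact mul_le_mul_of_nonneg_left (exp_small ht) (abs_nonneg _)

lemma right_dominated (x : ℝ) (hx : x ∈ Set.Icc (-1 : ℝ) 1) : |Q0.eval x| ≤ |Q0.eval 1| := by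
  obtain ⟨hx0, hx1⟩ := hx
  rcases le_or_gt x (-199 / 200) with h1 | h1
  · refine arc x (23 / 10000 - 1) ?_ ?_ ?_
    · intro z hz
      rcases mem_S hz with h | h | h | h | h <;> rw [h] <;> constructor <;> nlinarith
    · nlinarith
    · rw [Q0_eval, Q0_eval]
      rw [abs_of_neg (by norm_num), abs_of_pos (by norm_num)]
      norm_num
  rcases le_or_gt x (-19 / 20) with h2 | h2
  · refine arc x (13 / 500 - 1) ?_ ?_ ?_
    · intro z hz
      rcases mem_S hz with h | h | h | h | h <;> rw [h] <;> constructor <;> nlinarith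
    · nlinarith
    · rw [Q0_eval, Q0_eval]
      rw [abs_of_pos (by norm_num), abs_of_pos (by norm_num)]
      norm_num
  rcases le_or_gt x (-22 / 25) with h3 | h3
  · refine arc x (397 / 5000 - 1) ?_ ?_ ?_
    · intro z hz
      rcases mem_S hz with h | h | h | h | h <;> rw [h] <;> constructor <;> nlinarith
    · nlinarith
    · rw [Q0_eval, Q0_eval]
      rw [abs_of_neg (by norm_num), abs_of_pos (by norm_num)]
      norm_num
  rcases le_or_gt x (21 / 100) with h4 | h4
  · refine arc x (1733 / 10000 - 1) ?_ ?_ ?_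
    · intro z hz
      rcases mem_S hz with h | h | h | h | h <;> rw [h] <;> constructor <;> nlinarith
    · nlinarith
    · rw [Q0_eval, Q0_eval]
      rw [abs_of_pos (by norm_num), abs_of_pos (by norm_num)]
      norm_num
  · have h5 := tangent S x 1 (fun z hz => by
      rcases mem_S hz with h | h | h | h | h <;> rw [h] <;> norm_num) (fun z hz => by
      rcases mem_S hz with h | h | h | h | h <;> rw [h] <;>
        exact div_nonneg (by linarith) (by norm_num))
    rw [prod_eval, prod_eval, sum_eval] at h5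
    refine h5.trans ?_
    have h6 : Real.exp ((x - 1) * (40 / (1 - 21 / 100) + 1 / (1 + 1) + 1 / (1 + 199 / 200) +
        1 / (1 + 19 / 20) + 1 / (1 + 22 / 25))) ≤ 1 := by
      rw [Real.exp_le_one_iff]
      exact mul_nonpos_of_nonpos_of_nonneg (by linarith) (by norm_num)
    calc |Q0.eval 1| * _ ≤ |Q0.eval 1| * 1 := mul_le_mul_of_nonneg_left h6 (abs_nonneg _)
      _ = _ := mul_one _

/-- The Nikolov–Shadrin statement is false: there is a real polynomial `Q` of degree `44`, all of
whose `44` zeros are real and lie in `[-1, 1]`, with `|Q| ≤ |Q(1)|` on `[-1, 1]`, and with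
`|Q'(x₀)| > max (|Q'(-1)|, |Q'(1)|)` for some `x₀ ∈ (-1, 1)`. -/
theorem result : ∃ Q : ℝ[X], Q.natDegree = 44 ∧ Multiset.card Q.roots = 44 ∧
    (∀ r ∈ Q.roots, r ∈ Set.Icc (-1 : ℝ) 1) ∧
    (∀ x ∈ Set.Icc (-1 : ℝ) 1, |Q.eval x| ≤ |Q.eval 1|) ∧
    ∃ x₀ ∈ Set.Ioo (-1 : ℝ) 1,
      max |(derivative Q).eval (-1)| |(derivative Q).eval 1| < |(derivative Q).eval x₀| := by
  have hcard : Multiset.card S = 44 := by unfold S; simp
  refine ⟨Q0, ?_, ?_, ?_, right_dominated, -989 / 1000, by constructor <;> norm_num, ?_⟩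
  · unfold Q0
    rw [natDegree_multiset_prod_X_sub_C_eq_card, hcard]
  · unfold Q0
    rw [roots_multiset_prod_X_sub_C, hcard]
  · unfold Q0
    rw [roots_multiset_prod_X_sub_C]
    intro r hr
    rcases mem_S hr with h | h | h | h | h <;> rw [h] <;> constructor <;> norm_num
  · rw [Q0_deriv, Q0_deriv, Q0_deriv, max_lt_iff]
    constructor
    · rw [abs_of_neg (by norm_num), abs_of_pos (by norm_num)]
      norm_num
    · rw [abs_of_pos (by norm_num), abs_of_pos (by norm_num)]
      norm_num

end Pool.Agent.Results.MP_512501_an.Counterexample
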